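import Pool.Agent.Helper86.CT.PcT

/-!
Row NCT (MP_c75db0): the kernel functions of a near cell of a class with tails. The test of a family
of type A is a parameter `F`, as is the additional test of a cell (families of type B).
-/

set_option autoImplicit false
noncomputable section
namespace Pool.Agent.Helper48.NCT

open Pool.Agent.Helper86.CX
open Pool.Agent.Helper86.CT

/-! ### identity blocks -/

/-- a target form with its source forms and multipliers -/
structure IT where
  k : Nat
  s : List SE

/-- the trees of multipliers with all vertices `2 ^ 24` (one) -/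
def on0 : Nat := (nat_lit 16777216)
def on1 : Pr Nat := ⟨on0, on0⟩
def on2 : Pr (Pr Nat) := ⟨on1, on1⟩
def on3 : Pr (Pr (Pr Nat)) := ⟨on2, on2⟩
def on4 : Pr (Pr (Pr (Pr Nat))) := ⟨on3, on3⟩

/-- `A - lam B > 0` at all leaves -/
def idT {α β p v γ : Type} (M : Mc α β p v γ) (KT LT ONE : β) (k : Nat) (x : SE) : Bool :=
  M.P.t NG (nat_lit 1) (Nat.add (nat_lit 1871026825446066716183999886769161229612964411763787934673629221857388127239586241236997880575614864626694998997878668093460198064341887307173708030584713089751434338833145753991855834341641635817078791323944486323653560896858453107221646736647080365267476951252133001328457872097694522420600377928767186716688278330708865686161029267144657449407487701311690973716443035965661022999314253327687828776410995801788781156965587263609715326599328293187017518987303885722372280682885301503915558342964973492047287451599068995659787742790895207638722168769866005616869112421885399924975074859139562836571418106717640748641020347763944440483085523393832772204956743819877359460055035121445025236385792)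 (Nat.mul NG (nat_lit 13407807929942597099574024998205846127479365820592393377723561443721764030073662768891111614362326998675040546094339320838419523375986027530441562135724033))) (nat_lit 1) (nat_lit 0)
    (M.L.lk k (nat_lit 0) KT ONE) (M.L.lk x.k x.l KT LT) (M.L.lk x.k x.l KT LT)
/-- all sources -/
def idTs {α β p v γ : Type} (M : Mc α β p v γ) (KT LT ONE : β) (k : Nat) (s : List SE) : Bool :=
  List.rec (motive := fun _ => Bool) true (fun x _ ih => andB (idT M KT LT ONE k x) ih) s
/-- THE TEST OF THE IDENTITY BLOCKS -/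
def chkIT {α β p v γ : Type} (M : Mc α β p v γ) (KT LT ONE : β) (l : List IT) : Bool :=
  List.rec (motive := fun _ => Bool) true (fun x _ ih => andB (idTs M KT LT ONE x.k x.s) ih) l

/-! ### near cells -/

/-- a near cell -/
structure NDT (α β δ : Type) where
  c : CellT α β
  D0 : δ
  D1 : δ
  D2 : δ

/-- `f = true` implies `b` -/
def imB (f b : Bool) : Bool := Bool.rec (motive := fun _ => Bool) true b f

/-- the type of the test of a family: tables of forms, data, `lambda`, the two weights,
`1 / z`, `z` -/
abbrev FTT (α β δ : Type) := β → δ → Mo α → Mo α → Mo α → Mo α → Mo α → Bool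

/-- the three walls -/
def fam3T {α β δ : Type} (F : FTT α β δ) (f0 f1 f2 : Bool) (k0 k1 k2 : Mo α) (C : Cls α) (KT : β)
    (D0 D1 D2 : δ) (u z : Mo α) : Bool :=
  andB (imB f0 (F KT D0 C.l0 k0 k2 u z)) (andB (imB f1 (F KT D1 C.l1 k1 k0 u z))
    (imB f2 (F KT D2 C.l2 k2 k1 u z)))
def famXT {α β δ : Type} (A : Alg α) (F : FTT α β δ) (f0 f1 f2 : Bool) (k0 k1 k2 : Mo α)
    (C : Cls α) (KT : β) (D0 D1 D2 : δ) (m : Nat) (x u z : Mo α) : Bool :=
  fam3T F f0 f1 f2 k0 k1 k2 C KT D0 D1 D2 (uM A m x u z) (zM x (uM A m x u z) z)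
/-- the families of a cell -/
def famCT {α β δ : Type} (A : Alg α) (F : FTT α β δ) (f0 f1 f2 : Bool) (k0 k1 k2 : Mo α)
    (C : Cls α) (D0 D1 D2 : δ) (x : Mo α) (m : Nat) (u : α) (KT : β) : Bool :=
  famXT A F f0 f1 f2 k0 k1 k2 C KT D0 D1 D2 m x (mk A u (nat_lit 0))
    (mk A (A.sub x.v u) (nat_lit 0))

/-- the tests of a near cell besides those of a middle cell -/
def chkNET {α β δ p v γ : Type} (M : Mc α β p v γ) (y : Nat → Nat → α) (F : FTT α β δ)
    (f0 f1 f2 : Bool) (k0 k1 k2 : Mo α) (C : Cls α) (x0 : Mo α) (ONE : β) (il : List IT)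
    (d : NDT α β δ) : Bool :=
  andB (chkIT M d.c.K d.c.L ONE il) (famCT M.A F f0 f1 f2 k0 k1 k2 C d.D0 d.D1 d.D2
    (addM M.A x0 (mk M.A (y d.c.ya d.c.yb) (nat_lit 0))) d.c.m d.c.u d.c.K)

/-- ALL TESTS OF A NEAR CELL -/
def chkNT {α β δ p v γ : Type} (M : Mc α β p v γ) (S : Sv p) (W : Vx β) (y : Nat → Nat → α)
    (F : FTT α β δ) (f0 f1 f2 : Bool) (k0 k1 k2 : Mo α) (C : Cls α) (G : Prog v) (x0 : Mo α)
    (sl : List Nat) (le : List LT2) (ONE : β) (il : List IT) (d : NDT α β δ) : Bool :=
  andB (chkDT M S W y C G x0 sl le d.c) (chkNET M y F f0 f1 f2 k0 k1 k2 C x0 ONE il d)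

/-- a chain of cells from `y` to `e` with the test `f` -/
def pcNT {α β δ : Type} (f : NDT α β δ → Bool) (e : Nat) (l : List (NDT α β δ)) : Nat → Bool :=
  List.rec (motive := fun _ => Nat → Bool) (fun y => Nat.beq y e)
    (fun c _ ih y => andB (Nat.beq y c.c.ya) (andB (Nat.ble c.c.ya c.c.yb) (andB (f c) (ih c.c.yb)))) l

/-- A LIST OF NEAR CELLS -/
def chkPNT {α β δ p v γ : Type} (M : Mc α β p v γ) (S : Sv p) (W : Vx β) (y : Nat → Nat → α)
    (F : FTT α β δ) (f0 f1 f2 : Bool) (k0 k1 k2 : Mo α) (C : Cls α) (G : Prog v) (x0 : Mo α)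
    (sl : List Nat) (le : List LT2) (ONE : β) (il : List IT) (e : Nat)
    (l : List (NDT α β δ)) : Nat → Bool :=
  pcNT (chkNT M S W y F f0 f1 f2 k0 k1 k2 C G x0 sl le ONE il) e l

end Pool.Agent.Helper48.NCT
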