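import Pool.Agent.Helper39.CX.NCL

/-!
Row NCT (MP_c75db0): the block certificate of a near point, without any program: single runs,
walls with and without families of type A, families of type B, all as propositions about the forms.
-/

set_option autoImplicit false
noncomputable section
namespace Pool.Agent.Helper48.NCT

open Pool.Agent.Helper86.CX hiding gM
open Pool.Agent.Helper6.MONO (V3 RV2 TCert mm RMb LNI_mm Y0)
open Pool.Agent.Helper21.SUP (GS DG SBlk SSt Ty std Modes gM sD_cons sD_nil gM_append)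
open Pool.Agent.Helper21.SUP renaming nx → nxs
open Pool.Agent.Helper39.SLT (T4 ML BlkCert typ_cert swA_base swA_one')
open Pool.Agent.Helper6.PRG (giS)
open Pool.Agent.Helper6.MTC (FCert RK)
open Pool.Agent.Helper39.NCL (single_all gM_one next_base nx_nx3)
open Complex ComplexConjugate

variable {p q r : ℕ}

/-- EVERYTHING ABOUT THE RUNS AT A NEAR POINT. `K`: the forms of the states; `f`: walls with a
family of type A; `E`, `X`: entry and exit forms of the base states (`giS s < 3`); `gb`: the runs of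
two letters are covered by families -/
structure NearC (p q r : ℕ) (w : ℂ) (K : GS → T4 → Hm ℝ) (gb : Bool) (f : GS → Bool)
    (E X : GS → Hm ℝ) : Prop where
  r4 : ∀ s, DG s → ∀ T : T4, T.ok (ML p q r s) → ∀ m, 4 ≤ m → m ≤ mm p q r s.1 s.2.1 → ∀ v,
    0 < ev (K s T) v → 0 < ev (K (nxs s m) (T4.next (mm p q r s.1 s.2.1) m))
      ((RMb p q r s m w).mulVec v)
  r2 : gb = false → ∀ s, DG s → ∀ T : T4, T.ok (ML p q r s) → T.low (ML p q r s) ≤ 2 → ∀ v,
    0 < ev (K s T) v → 0 < ev (K (nxs s 2) T4.two) ((RMb p q r s 2 w).mulVec v)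
  r3 : ∀ s, DG s → f s = false → ∀ T : T4, T.ok (ML p q r s) → ∀ v,
    0 < ev (K s T) v → 0 < ev (K (nxs s 3) T4.three) ((RMb p q r s 3 w).mulVec v)
  fs : ∀ s, DG s → f (nxs s 3) = f s
  eb : ∀ s, DG s → f s = true → giS s < 3 → ∀ T : T4, T.ok (ML p q r s) → T ≠ T4.three → ∀ v,
    0 < ev (K s T) v → 0 < ev (E s) v
  en : ∀ s, DG s → f s = true → ¬ giS s < 3 → ∀ T : T4, T.ok (ML p q r s) → T ≠ T4.three → ∀ v,
    0 < ev (K s T) v → 0 < ev (K (nxs s 3) T4.three) ((RMb p q r s 3 w).mulVec v) ∧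
      0 < ev (E (nxs s 3)) ((RMb p q r s 3 w).mulVec v)
  x0 : ∀ s, DG s → f s = true → giS s < 3 → ∀ v, 0 < ev (X s) v →
    0 < ev (K s T4.three) v ∧ 0 < ev (K (nxs s 3) T4.three) ((RMb p q r s 3 w).mulVec v)
  e3 : ∀ s, DG s → f s = true → giS s < 3 → ∀ v, 0 < ev (E s) v →
    0 < ev (K (nxs s 3) T4.three) ((RMb p q r s 3 w).mulVec v)
  fam : ∀ s, DG s → f s = true → giS s < 3 → ∀ m : ℕ, ∀ v, 0 < ev (E s) v →
    0 < ev (X s) ((gM (RMb p q r) s (List.replicate 2 3) w ^ (m + 1)).mulVec v)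
  B : gb = true → ∀ s, DG s → ∀ T : T4, T.ok (ML p q r s) → T.low (ML p q r s) ≤ 2 →
    T ≠ T4.two → ∀ k : ℕ, ∀ v, 0 < ev (K s T) v →
      0 < ev (K (Pool.Agent.Helper6.MONO.sD s (List.replicate (k + 1) 2)) T4.two)
        ((gM (RMb p q r) s (List.replicate (k + 1) 2) w).mulVec v)

/-- a wall with a family -/
theorem NearC.wall {w : ℂ} {K : GS → T4 → Hm ℝ} {gb : Bool} {f : GS → Bool} {E X : GS → Hm ℝ}
    (h : NearC p q r w K gb f E X) {s : GS} (hs : DG s) (hf : f s = true) {T : T4}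
    (hT : T.ok (ML p q r s)) (hT3 : T ≠ T4.three) (k : ℕ) :
    ∀ v ∈ {v : Fin 3 → ℂ | 0 < ev (K s T) v},
      (gM (RMb p q r) s (List.replicate (k + 1) 3) w).mulVec v ∈
        (fun s => {v : Fin 3 → ℂ | 0 < ev (K s T4.three) v})
          (Pool.Agent.Helper6.MONO.sD s (List.replicate (k + 1) 3)) := by
  by_cases hi : giS s < 3
  · exact swA_base (E := {v | 0 < ev (E s) v}) (X := {v | 0 < ev (X s) v})
      (T := fun s => {v : Fin 3 → ℂ | 0 < ev (K s T4.three) v})
      (fun n v hv => h.fam s hs hf hi n v hv) (fun v hv => h.eb s hs hf hi T hT hT3 v hv)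
      (fun v hv => (h.x0 s hs hf hi v hv).1) (fun v hv => (h.x0 s hs hf hi v hv).2)
      (fun v hv => h.e3 s hs hf hi v (h.eb s hs hf hi T hT hT3 v hv)) k
  · have hn := Pool.Agent.Helper21.SUP.DG_nx s 3 hs
    obtain ⟨hb, -⟩ := next_base s hs hi
    have hf' : f (nxs s 3) = true := by rw [h.fs s hs]; exact hf
    exact swA_one' (E := {v | 0 < ev (E (nxs s 3)) v}) (X := {v | 0 < ev (X (nxs s 3)) v})
      (T := fun s => {v : Fin 3 → ℂ | 0 < ev (K s T4.three) v})
      (fun n v hv => h.fam (nxs s 3) hn hf' hb n v hv)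
      (fun v hv => (h.en s hs hf hi T hT hT3 v hv).2)
      (fun v hv => (h.x0 (nxs s 3) hn hf' hb v hv).1)
      (fun v hv => by
        have h7 := (h.x0 (nxs s 3) hn hf' hb v hv).2
        rw [nx_nx3] at h7
        exact h7)
      (fun v hv => (h.en s hs hf hi T hT hT3 v hv).1)
      (fun v hv => by
        have h7 := h.e3 (nxs s 3) hn hf' hb v hv
        rw [nx_nx3] at h7
        exact h7) k

/-- a wall without a family -/
theorem NearC.nowall {w : ℂ} {K : GS → T4 → Hm ℝ} {gb : Bool} {f : GS → Bool} {E X : GS → Hm ℝ}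
    (h : NearC p q r w K gb f E X) {s : GS} (hs : DG s) (hf : f s = false) {T : T4}
    (hT : T.ok (ML p q r s)) (k : ℕ) :
    ∀ v ∈ {v : Fin 3 → ℂ | 0 < ev (K s T) v},
      (gM (RMb p q r) s (List.replicate (k + 1) 3) w).mulVec v ∈
        (fun s => {v : Fin 3 → ℂ | 0 < ev (K s T4.three) v})
          (Pool.Agent.Helper6.MONO.sD s (List.replicate (k + 1) 3)) := by
  intro v hv
  have hsn : ∀ u ∈ ({s, nxs s 3} : Set GS), nxs u 3 ∈ ({s, nxs s 3} : Set GS) := by
    intro u hu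
    rcases hu with rfl | hu
    · exact Or.inr rfl
    · rw [Set.mem_singleton_iff.1 hu, nx_nx3]
      exact Or.inl rfl
  have hall : ∀ u ∈ ({s, nxs s 3} : Set GS), ∀ v, 0 < ev (K u T4.three) v →
      0 < ev (K (nxs u 3) T4.three) ((RMb p q r u 3 w).mulVec v) := by
    intro u hu
    rcases hu with rfl | hu
    · exact h.r3 u hs hf T4.three trivial
    · rw [Set.mem_singleton_iff.1 hu]
      have hn := Pool.Agent.Helper21.SUP.DG_nx s 3 hs
      exact h.r3 _ hn (by rw [h.fs s hs]; exact hf) T4.three trivial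
  have h2 := h.r3 s hs hf T hT v hv
  have h3 := single_all (RM := RMb p q r) (w := w) (x := 3)
    (T := fun s => {v : Fin 3 → ℂ | 0 < ev (K s T4.three) v})
    (S := {s, nxs s 3}) hsn (fun u hu v hv => hall u hu v hv) k (nxs s 3) (Or.inr rfl) _ h2
  rw [List.replicate_succ]
  have e : (3 :: List.replicate k 3 : List ℕ) = [3] ++ List.replicate k 3 := rfl
  rw [sD_cons, e, gM_append, ← Matrix.mulVec_mulVec, gM_one]
  have e2 : Pool.Agent.Helper6.MONO.sD s [3] = nxs s 3 := by rw [sD_cons, sD_nil]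
  rw [e2]
  exact h3

/-- THE BLOCK CERTIFICATE OF A NEAR POINT -/
theorem NearC.blk (hp : 3 ≤ p) (hq : 3 ≤ q) (hr : 3 ≤ r) {w : ℂ} {K : GS → T4 → Hm ℝ} {gb : Bool}
    {f : GS → Bool} {E X : GS → Hm ℝ} (h : NearC p q r w K gb f E X) :
    BlkCert (std Y0) p q r (RMb p q r) w (Pool.Agent.Helper39.SLT.reg p q r (RK K)) := by
  refine typ_cert hp hq hr (fun _ => rfl) (fun _ => rfl) (fun _ _ => rfl)
    (ga := true) (gb := gb) ?_ ?_ ?_ ?_ ?_
  · intro s hs T hT m h4 hm v hv
    exact h.r4 s hs T hT m h4 hm v hv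
  · intro h0
    exact absurd h0 (by decide)
  · intro _ s hs T hT hT3 k v hv
    cases hf : f s with
    | true => exact h.wall hs hf hT hT3 k v hv
    | false => exact h.nowall hs hf hT k v hv
  · intro hgb s hs T hT hl v hv
    exact h.r2 hgb s hs T hT hl v hv
  · intro hgb s hs T hT hl hT2 k v hv
    exact h.B hgb s hs T hT hl hT2 k v hv

/-- THE CERTIFICATE OF A NEAR POINT -/
theorem NearC.tcert (hp : 3 ≤ p) (hq : 3 ≤ q) (hr : 3 ≤ r) {V : RV2} {e κ M : ℝ} (hκ : 0 < κ)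
    {w : ℂ} {K : GS → T4 → Hm ℝ} {gb : Bool} {f : GS → Bool} {E X : GS → Hm ℝ}
    (hF : FCert V e p q r κ M w K) (h : NearC p q r w K gb f E X) :
    TCert V e p q r (5 * M / κ + 1) w (RK K) :=
  hF.tcert hκ (h.blk hp hq hr)

/-! ### the runs of two letters through forms `F` of the states -/

/-- one more form `F s` per state: the families of type B without a family -/
theorem B_of_F {w : ℂ} {K : GS → T4 → Hm ℝ} {F : GS → Hm ℝ}
    (h1 : ∀ s, DG s → ∀ T : T4, T.ok (ML p q r s) → T.low (ML p q r s) ≤ 2 → T ≠ T4.two → ∀ v,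
      0 < ev (K s T) v → 0 < ev (F (nxs s 2)) ((RMb p q r s 2 w).mulVec v))
    (h2 : ∀ s, DG s → ∀ v, 0 < ev (F s) v → 0 < ev (F (nxs s 2)) ((RMb p q r s 2 w).mulVec v))
    (h3 : ∀ s, DG s → ∀ v, 0 < ev (F s) v → 0 < ev (K s T4.two) v) :
    ∀ s, DG s → ∀ T : T4, T.ok (ML p q r s) → T.low (ML p q r s) ≤ 2 →
      T ≠ T4.two → ∀ k : ℕ, ∀ v, 0 < ev (K s T) v →
      0 < ev (K (Pool.Agent.Helper6.MONO.sD s (List.replicate (k + 1) 2)) T4.two)
        ((gM (RMb p q r) s (List.replicate (k + 1) 2) w).mulVec v) := by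
  have hD : ∀ (k : ℕ) (s : GS), DG s → DG (Pool.Agent.Helper6.MONO.sD s (List.replicate k 2)) := by
    intro k
    induction k with
    | zero => intro s hs; exact hs
    | succ k ih =>
      intro s hs
      rw [List.replicate_succ, sD_cons]
      exact ih _ (Pool.Agent.Helper21.SUP.DG_nx s 2 hs)
  intro s hs T hT hl hT2 k v hv
  have a1 := h1 s hs T hT hl hT2 v hv
  have hn := Pool.Agent.Helper21.SUP.DG_nx s 2 hs
  have a2 := single_all (RM := RMb p q r) (w := w) (x := 2)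
    (T := fun s => {v : Fin 3 → ℂ | 0 < ev (F s) v}) (S := {s | DG s})
    (fun u hu => Pool.Agent.Helper21.SUP.DG_nx u 2 hu) (fun u hu v hv => h2 u hu v hv) k
    (nxs s 2) hn _ a1
  have a3 := h3 _ (hD k _ hn) _ a2
  rw [List.replicate_succ]
  have e : (2 :: List.replicate k 2 : List ℕ) = [2] ++ List.replicate k 2 := rfl
  rw [sD_cons, e, gM_append, ← Matrix.mulVec_mulVec, gM_one]
  have e2 : Pool.Agent.Helper6.MONO.sD s [2] = nxs s 2 := by rw [sD_cons, sD_nil]
  rw [e2]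
  exact a3

end Pool.Agent.Helper48.NCT
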