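import Pool.Agent.Helper81.MIT.Cov
import Pool.Agent.Helper48.CT.NCA
import Pool.Agent.Helper48.CT.NKT

/-!
Row NCT (MP_c75db0): the typed program of a near cell of a class with tails covers everything;
from the results of its tests at a point to the certificate of the point.
-/

set_option autoImplicit false
noncomputable section
namespace Pool.Agent.Helper48.NCT

open Pool.Agent.Helper81.MIT
open Pool.Agent.Helper86.CX hiding gM
open Pool.Agent.Helper6.MONO (V3 RV2 TCert kk mm RMb zw LNI_mm Y0)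
open Pool.Agent.Helper21.SUP (GS DG gM DG_nx)
open Pool.Agent.Helper21.SUP renaming nx → nxs
open Pool.Agent.Helper39.SLT (T4 ML)
open Pool.Agent.Helper6.PRG (gsF giS gsF_giS)
open Pool.Agent.Helper6.MTC (FCert RK)
open Pool.Agent.Helper39.NCL (WN wS wS_next)
open Pool.Agent.Helper21.KRN (TProg KResT)
open Complex ComplexConjugate

/-- the identity block from `k'` into `k` is in the list -/
def hasIT (l : List IT) (k k' : ℕ) : Bool :=
  l.any fun x => x.k == k && x.s.any fun y => y.k == k'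

/-- the runs of at least four letters -/
def cov4T (p q r : ℕ) (BE BO : List ℕ) (G : TProg) (i : ℕ) : Bool :=
  (msT (mm p q r (gsF i).1 (gsF i).2.1)).all fun m =>
    if 4 ≤ m then (tysT (ML p q r (gsF i))).all fun T =>
      hasRun p q r BE BO G (gsF i) m
        (kidxT p q r (nxs (gsF i) m) (T4.next (mm p q r (gsF i).1 (gsF i).2.1) m))
        (kidxT p q r (gsF i) T) else true

/-- the runs of two letters, single -/
def cov2T (p q r : ℕ) (BE BO : List ℕ) (G : TProg) (i : ℕ) : Bool :=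
  (tysT (ML p q r (gsF i))).all fun T =>
    if T.low (ML p q r (gsF i)) ≤ 2 then
      hasRun p q r BE BO G (gsF i) 2 (kidxT p q r (nxs (gsF i) 2) T4.two)
        (kidxT p q r (gsF i) T) else true

/-- the runs of three letters, single -/
def cov3T (p q r : ℕ) (BE BO : List ℕ) (G : TProg) (i : ℕ) : Bool :=
  (tysT (ML p q r (gsF i))).all fun T =>
    hasRun p q r BE BO G (gsF i) 3 (kidxT p q r (nxs (gsF i) 3) T4.three) (kidxT p q r (gsF i) T)

/-- the runs of three letters with a family, types other than `three` -/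
def cov3AT (p q r : ℕ) (BE BO : List ℕ) (G : TProg) (il : List IT) (W : WN) (i : ℕ) : Bool :=
  (tysT (ML p q r (gsF i))).all fun T =>
    if T = T4.three then true else
      if i < 3 then hasIT il W.e (kidxT p q r (gsF i) T) else
        hasRun p q r BE BO G (gsF i) 3 (kidxT p q r (nxs (gsF i) 3) T4.three)
            (kidxT p q r (gsF i) T) &&
          hasRun p q r BE BO G (gsF i) 3 W.e (kidxT p q r (gsF i) T)

/-- the exit tests of a family at its base state -/
def covXT (p q r : ℕ) (BE BO : List ℕ) (G : TProg) (il : List IT) (W : WN) (i : ℕ) : Bool :=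
  hasIT il (kidxT p q r (gsF i) T4.three) W.x &&
    (hasRun p q r BE BO G (gsF i) 3 (kidxT p q r (nxs (gsF i) 3) T4.three) W.x &&
      hasRun p q r BE BO G (gsF i) 3 (kidxT p q r (nxs (gsF i) 3) T4.three) W.e)

/-- the runs of three letters -/
def covAT (p q r : ℕ) (BE BO : List ℕ) (G : TProg) (il : List IT) (W : WN) (i : ℕ) : Bool :=
  if W.f = true then cov3AT p q r BE BO G il W i &&
    (if i < 3 then covXT p q r BE BO G il W i else true)
  else cov3T p q r BE BO G i

/-- THE PROGRAM OF A NEAR CELL COVERS EVERYTHING; `gb`: the runs of two letters are covered by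
families; the orders are representatives -/
def coverNT (p q r : ℕ) (gb : Bool) (W0 W1 W2 : WN) (BE BO : List ℕ) (G : TProg) (il : List IT) :
    Bool :=
  brOK BE BO && (List.range 6).all fun i => (gb || cov2T p q r BE BO G i) &&
    (covAT p q r BE BO G il (wS W0 W1 W2 i) i && cov4T p q r BE BO G i)

/-- the runs of two letters through the forms number `fn i` of the states -/
def covFT (p q r : ℕ) (BE BO : List ℕ) (G : TProg) (il : List IT) (fn : ℕ → ℕ) (i : ℕ) : Bool :=
  ((tysT (ML p q r (gsF i))).all fun T =>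
    if T.low (ML p q r (gsF i)) ≤ 2 ∧ T ≠ T4.two then
      hasRun p q r BE BO G (gsF i) 2 (fn (giS (nxs (gsF i) 2))) (kidxT p q r (gsF i) T)
    else true) &&
  (hasRun p q r BE BO G (gsF i) 2 (fn (giS (nxs (gsF i) 2))) (fn i) &&
    hasIT il (kidxT p q r (gsF i) T4.two) (fn i))

/-- all states have such a form -/
def coverFT (p q r : ℕ) (BE BO : List ℕ) (G : TProg) (il : List IT) (fn : ℕ → ℕ) : Bool :=
  (List.range 6).all fun i => covFT p q r BE BO G il fn i

theorem hasIT_iff {l : List IT} {k k' : ℕ} (h : hasIT l k k' = true) :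
    ∃ x ∈ l, x.k = k ∧ ∃ y ∈ x.s, y.k = k' := by
  unfold hasIT at h
  rw [List.any_eq_true] at h
  obtain ⟨x, hx, h⟩ := h
  rw [Bool.and_eq_true, beq_iff_eq, List.any_eq_true] at h
  obtain ⟨h1, y, hy, h2⟩ := h
  exact ⟨x, hx, h1, y, hy, by simpa using h2⟩

variable {p q r : ℕ}

/-- a type other than `full` is its own cut -/
theorem cut_ne {M : ℕ} {T : T4} (h : T ≠ T4.full) : cut M T = T := by
  unfold cut
  rw [if_neg fun h' => h h'.2]

theorem cut_two {M : ℕ} {T : T4} (h : cut M T = T4.two) : T = T4.two := by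
  unfold cut at h
  split_ifs at h with h1
  exact h

theorem cut_three {M : ℕ} {T : T4} (h : cut M T = T4.three) : T = T4.three := by
  unfold cut at h
  split_ifs at h with h1
  exact h

/-- the parts of `coverNT` at a state of a class -/
structure AtS (p q r : ℕ) (gb : Bool) (W : WN) (BE BO : List ℕ) (G : TProg) (il : List IT)
    (s : GS) : Prop where
  r4 : ∀ T : T4, T.ok (ML p q r s) → ∀ m, 4 ≤ m → m ≤ mm p q r s.1 s.2.1 →
    hasRun (rep p) (rep q) (rep r) BE BO G s m
      (kidxT p q r (nxs s m) (T4.next (mm p q r s.1 s.2.1) m)) (kidxT p q r s T) = true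
  r2 : gb = false → ∀ T : T4, T.ok (ML p q r s) → T.low (ML p q r s) ≤ 2 →
    hasRun (rep p) (rep q) (rep r) BE BO G s 2 (kidxT p q r (nxs s 2) T4.two)
      (kidxT p q r s T) = true
  r3 : W.f = false → ∀ T : T4, T.ok (ML p q r s) →
    hasRun (rep p) (rep q) (rep r) BE BO G s 3 (kidxT p q r (nxs s 3) T4.three)
      (kidxT p q r s T) = true
  eb : W.f = true → giS s < 3 → ∀ T : T4, T.ok (ML p q r s) → T ≠ T4.three →
    hasIT il W.e (kidxT p q r s T) = true
  en : W.f = true → ¬ giS s < 3 → ∀ T : T4, T.ok (ML p q r s) → T ≠ T4.three →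
    hasRun (rep p) (rep q) (rep r) BE BO G s 3 (kidxT p q r (nxs s 3) T4.three)
      (kidxT p q r s T) = true ∧
    hasRun (rep p) (rep q) (rep r) BE BO G s 3 W.e (kidxT p q r s T) = true
  x0 : W.f = true → giS s < 3 → hasIT il (kidxT p q r s T4.three) W.x = true ∧
    hasRun (rep p) (rep q) (rep r) BE BO G s 3 (kidxT p q r (nxs s 3) T4.three) W.x = true ∧
    hasRun (rep p) (rep q) (rep r) BE BO G s 3 (kidxT p q r (nxs s 3) T4.three) W.e = true

theorem coverNT_at {gb : Bool} {W0 W1 W2 : WN} {BE BO : List ℕ} {G : TProg} {il : List IT}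
    (hp : 3 ≤ p) (hq : 3 ≤ q) (hr : 3 ≤ r)
    (h : coverNT (rep p) (rep q) (rep r) gb W0 W1 W2 BE BO G il = true) {s : GS} (hs : DG s) :
    AtS p q r gb (wS W0 W1 W2 (giS s)) BE BO G il s := by
  obtain ⟨e, hi⟩ := gsF_giS s hs
  unfold coverNT at h
  rw [Bool.and_eq_true, List.all_eq_true] at h
  have h3 := h.2 (giS s) (List.mem_range.2 hi)
  simp only [Bool.and_eq_true, Bool.or_eq_true] at h3
  obtain ⟨c2, cA, c4⟩ := h3
  have eL := ML_rep p q r hs
  have eM := mm_rep p q r _ _ hs.1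
  have hM3 : 3 ≤ ML p q r s := LNI_mm hp hq hr _ _ (fun e => hs.2.2 e.symm)
  have hn : ∀ m, DG (nxs s m) := fun m => DG_nx s m hs
  -- three letters, single
  have k3 : (cov3T (rep p) (rep q) (rep r) BE BO G (giS s) = true) → ∀ T : T4,
      T.ok (ML p q r s) → hasRun (rep p) (rep q) (rep r) BE BO G s 3
        (kidxT p q r (nxs s 3) T4.three) (kidxT p q r s T) = true := by
    intro h1 T hT
    unfold cov3T at h1
    rw [e, eL, tysT_rep, List.all_eq_true] at h1
    have h2 := h1 _ (cut_mem hT)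
    rw [kidxT_rep p q r hs, kidxT_cut, kidxT_rep p q r (hn 3)] at h2
    exact h2
  refine ⟨?_, ?_, ?_, ?_, ?_, ?_⟩
  · intro T hT m h4 hm
    unfold cov4T at c4
    rw [e, eM, msT_rep, List.all_eq_true] at c4
    have h5 := c4 _ (cutm_mem (by omega) hm)
    have h4' : 4 ≤ cutm (mm p q r s.1 s.2.1) m := by
      unfold cutm
      split_ifs
      · omega
      · exact h4
    rw [if_pos h4', eL, tysT_rep, List.all_eq_true] at h5
    have h6 := h5 _ (cut_mem hT)
    rw [kidxT_rep p q r hs, kidxT_cut, kidxT_rep p q r (hn _), kidxT_next hs (by omega)] at h6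
    have h7 := hasRun_cutm (p := rep p) (q := rep q) (r := rep r) BE BO G s m
      (kidxT p q r (nxs s m) (T4.next (mm p q r s.1 s.2.1) m)) (kidxT p q r s T)
    rw [eM, cutm_rep] at h7
    rw [← h7]
    exact h6
  · intro hgb T hT hl
    have h2 : cov2T (rep p) (rep q) (rep r) BE BO G (giS s) = true := by
      rcases c2 with c2 | c2
      · rw [hgb] at c2
        exact absurd c2 (by decide)
      · exact c2
    unfold cov2T at h2
    rw [e, eL, tysT_rep, List.all_eq_true] at h2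
    have h5 := h2 _ (cut_mem hT)
    rw [low_rep _ hM3, if_pos ((cut_low T).trans hl), kidxT_rep p q r hs, kidxT_cut,
      kidxT_rep p q r (hn 2)] at h5
    exact h5
  · intro hf T hT
    unfold covAT at cA
    rw [if_neg (by rw [hf]; decide)] at cA
    exact k3 cA T hT
  · intro hf hb T hT hT3
    unfold covAT at cA
    rw [if_pos hf, Bool.and_eq_true] at cA
    have h1 := cA.1
    unfold cov3AT at h1
    rw [e, eL, tysT_rep, List.all_eq_true] at h1
    have h2 := h1 _ (cut_mem hT)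
    rw [if_neg fun h => hT3 (cut_three h), if_pos hb, kidxT_rep p q r hs, kidxT_cut] at h2
    exact h2
  · intro hf hb T hT hT3
    unfold covAT at cA
    rw [if_pos hf, Bool.and_eq_true] at cA
    have h1 := cA.1
    unfold cov3AT at h1
    rw [e, eL, tysT_rep, List.all_eq_true] at h1
    have h2 := h1 _ (cut_mem hT)
    rw [if_neg fun h => hT3 (cut_three h), if_neg hb, kidxT_rep p q r hs, kidxT_cut,
      kidxT_rep p q r (hn 3), Bool.and_eq_true] at h2
    exact h2
  · intro hf hb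
    unfold covAT at cA
    rw [if_pos hf, Bool.and_eq_true, if_pos hb] at cA
    have h1 := cA.2
    unfold covXT at h1
    rw [e, kidxT_rep p q r hs, kidxT_rep p q r (hn 3)] at h1
    simp only [Bool.and_eq_true] at h1
    exact h1

/-- FROM THE TESTS OF A NEAR CELL AT A POINT TO THE INCLUSIONS OF THE FORMS -/
theorem nearC_of (hp : 3 ≤ p) (hq : 3 ≤ q) (hr : 3 ≤ r) {z : ℂ} (hz : z ≠ 0) (hz1 : z + 1 ≠ 0)
    {K : ℕ → Hm ℝ} {G : TProg} (hK : KResT K (kR p q r) z G) {gb : Bool} {W0 W1 W2 : WN}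
    {BE BO : List ℕ} {il : List IT}
    (hc : coverNT (rep p) (rep q) (rep r) gb W0 W1 W2 BE BO G il = true)
    (hI : ∀ x ∈ il, ∀ y ∈ x.s, ∀ v, 0 < ev (K y.k) v → 0 < ev (K x.k) v)
    (hfam : ∀ s, DG s → giS s < 3 → (wS W0 W1 W2 (giS s)).f = true → ∀ m : ℕ, ∀ v,
      0 < ev (K (wS W0 W1 W2 (giS s)).e) v → 0 < ev (K (wS W0 W1 W2 (giS s)).x)
        ((gM (RMb p q r) s (List.replicate 2 3) (zw z) ^ (m + 1)).mulVec v))
    (hB : gb = true → ∀ s, DG s → ∀ T : T4, T.ok (ML p q r s) → T.low (ML p q r s) ≤ 2 →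
      T ≠ T4.two → ∀ k : ℕ, ∀ v, 0 < ev (K (kidxT p q r s T)) v →
        0 < ev (K (kidxT p q r (Pool.Agent.Helper6.MONO.sD s (List.replicate (k + 1) 2)) T4.two))
          ((gM (RMb p q r) s (List.replicate (k + 1) 2) (zw z)).mulVec v)) :
    NearC p q r (zw z) (fun s T => K (kidxT p q r s T)) gb (fun s => (wS W0 W1 W2 (giS s)).f)
      (fun s => K (wS W0 W1 W2 (giS s)).e) (fun s => K (wS W0 W1 W2 (giS s)).x) := by
  have hbr : brOK BE BO = true := by
    unfold coverNT at hc
    rw [Bool.and_eq_true] at hc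
    exact hc.1
  have at' := fun {s : GS} (hs : DG s) => coverNT_at hp hq hr hc hs
  have hR : ∀ {s : GS}, DG s → ∀ {m : ℕ}, 2 ≤ m → m ≤ mm p q r s.1 s.2.1 → ∀ {k k' : ℕ},
      hasRun (rep p) (rep q) (rep r) BE BO G s m k k' = true → ∀ v : Fin 3 → ℂ,
        0 < ev (K k') v → 0 < ev (K k) ((RMb p q r s m (zw z)).mulVec v) :=
    fun {s} h {m} h2 hm {k k'} hb v hv => run_ofT hp hq hr hbr hz hz1 hK h h2 hm hb v hv
  have hId : ∀ {k k' : ℕ}, hasIT il k k' = true → ∀ v : Fin 3 → ℂ, 0 < ev (K k') v →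
      0 < ev (K k) v := by
    intro k k' hb v hv
    obtain ⟨x, hx, hk, y, hy, hk'⟩ := hasIT_iff hb
    rw [← hk]
    rw [← hk'] at hv
    exact hI x hx y hy v hv
  have h3m : ∀ s, DG s → 3 ≤ mm p q r s.1 s.2.1 := fun s h => LNI_mm hp hq hr _ _ h.1
  refine ⟨?_, ?_, ?_, ?_, ?_, ?_, ?_, ?_, ?_, ?_⟩
  · intro s hs T hT m h4 hm v hv
    exact hR hs (by omega) hm ((at' hs).r4 T hT m h4 hm) v hv
  · intro hgb s hs T hT hl v hv
    have := h3m s hs
    exact hR hs le_rfl (by omega) ((at' hs).r2 hgb T hT hl) v hv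
  · intro s hs hf T hT v hv
    exact hR hs (by norm_num) (h3m s hs) ((at' hs).r3 hf T hT) v hv
  · intro s hs
    rw [wS_next s hs]
  · intro s hs hf hb T hT hT3 v hv
    exact hId ((at' hs).eb hf hb T hT hT3) v hv
  · intro s hs hf hb T hT hT3 v hv
    obtain ⟨h1, h2⟩ := (at' hs).en hf hb T hT hT3
    refine ⟨hR hs (by norm_num) (h3m s hs) h1 v hv, ?_⟩
    rw [wS_next s hs]
    exact hR hs (by norm_num) (h3m s hs) h2 v hv
  · intro s hs hf hb v hv
    obtain ⟨h1, h2, -⟩ := (at' hs).x0 hf hb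
    exact ⟨hId h1 v hv, hR hs (by norm_num) (h3m s hs) h2 v hv⟩
  · intro s hs hf hb v hv
    obtain ⟨-, -, h3⟩ := (at' hs).x0 hf hb
    exact hR hs (by norm_num) (h3m s hs) h3 v hv
  · intro s hs hf hb m v hv
    exact hfam s hs hb hf m v hv
  · intro hgb s hs T hT hl hT2 k v hv
    exact hB hgb s hs T hT hl hT2 k v hv

/-- THE RUNS OF TWO LETTERS THROUGH THE FORMS NUMBER `fn` -/
theorem hB_of_F (hp : 3 ≤ p) (hq : 3 ≤ q) (hr : 3 ≤ r) {z : ℂ} (hz : z ≠ 0) (hz1 : z + 1 ≠ 0)
    {K : ℕ → Hm ℝ} {G : TProg} (hK : KResT K (kR p q r) z G) {BE BO : List ℕ}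
    (hbr : brOK BE BO = true) {il : List IT} {fn : ℕ → ℕ}
    (hc : coverFT (rep p) (rep q) (rep r) BE BO G il fn = true)
    (hI : ∀ x ∈ il, ∀ y ∈ x.s, ∀ v, 0 < ev (K y.k) v → 0 < ev (K x.k) v) :
    ∀ s, DG s → ∀ T : T4, T.ok (ML p q r s) → T.low (ML p q r s) ≤ 2 →
      T ≠ T4.two → ∀ k : ℕ, ∀ v, 0 < ev (K (kidxT p q r s T)) v →
        0 < ev (K (kidxT p q r (Pool.Agent.Helper6.MONO.sD s (List.replicate (k + 1) 2)) T4.two))
          ((gM (RMb p q r) s (List.replicate (k + 1) 2) (zw z)).mulVec v) := by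
  have h3m : ∀ s, DG s → 3 ≤ mm p q r s.1 s.2.1 := fun s h => LNI_mm hp hq hr _ _ h.1
  have hR : ∀ {s : GS}, DG s → ∀ {k k' : ℕ},
      hasRun (rep p) (rep q) (rep r) BE BO G s 2 k k' = true → ∀ v : Fin 3 → ℂ,
        0 < ev (K k') v → 0 < ev (K k) ((RMb p q r s 2 (zw z)).mulVec v) :=
    fun {s} h {k k'} hb v hv => run_ofT hp hq hr hbr hz hz1 hK h le_rfl
      (by have := h3m s h; omega) hb v hv
  have at' : ∀ s, DG s → (∀ T : T4, T.ok (ML p q r s) → T.low (ML p q r s) ≤ 2 → T ≠ T4.two →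
      hasRun (rep p) (rep q) (rep r) BE BO G s 2 (fn (giS (nxs s 2))) (kidxT p q r s T) = true) ∧
      hasRun (rep p) (rep q) (rep r) BE BO G s 2 (fn (giS (nxs s 2))) (fn (giS s)) = true ∧
      hasIT il (kidxT p q r s T4.two) (fn (giS s)) = true := by
    intro s hs
    obtain ⟨e, hi⟩ := gsF_giS s hs
    have hM3 : 3 ≤ ML p q r s := LNI_mm hp hq hr _ _ (fun e => hs.2.2 e.symm)
    unfold coverFT at hc
    rw [List.all_eq_true] at hc
    have h3 := hc (giS s) (List.mem_range.2 hi)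
    unfold covFT at h3
    rw [e, kidxT_rep p q r hs] at h3
    simp only [Bool.and_eq_true] at h3
    refine ⟨?_, h3.2.1, h3.2.2⟩
    intro T hT hl hT2
    have h4 := h3.1
    rw [ML_rep p q r hs, tysT_rep, List.all_eq_true] at h4
    have h5 := h4 _ (cut_mem hT)
    rw [low_rep _ hM3, if_pos ⟨(cut_low T).trans hl, fun h => hT2 (cut_two h)⟩,
      kidxT_rep p q r hs, kidxT_cut] at h5
    exact h5
  have hId : ∀ {k k' : ℕ}, hasIT il k k' = true → ∀ v : Fin 3 → ℂ, 0 < ev (K k') v →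
      0 < ev (K k) v := by
    intro k k' hb v hv
    obtain ⟨x, hx, hk, y, hy, hk'⟩ := hasIT_iff hb
    rw [← hk]
    rw [← hk'] at hv
    exact hI x hx y hy v hv
  exact B_of_F (K := fun s T => K (kidxT p q r s T)) (F := fun s => K (fn (giS s)))
    (fun s hs T hT hl hT2 v hv => hR hs ((at' s hs).1 T hT hl hT2) v hv)
    (fun s hs v hv => hR hs (at' s hs).2.1 v hv)
    (fun s hs v hv => hId (at' s hs).2.2 v hv)

end Pool.Agent.Helper48.NCT
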