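import Pool.Agent.Helper17.CT.KPT9
import Pool.Agent.Helper48.CT.NKT

/-!
Row NCT (MP_c75db0): soundness of the identity blocks of the classes with tails.
-/

set_option autoImplicit false
set_option exponentiation.threshold 4000
noncomputable section
namespace Pool.Agent.Helper48.NCT

open Pool.Agent.Helper86.C75 (Z)
open Pool.Agent.Helper86.CX (Hm P9 VR MM NG md psub ev andB Cx toM u32 kf psd SE)
open Pool.Agent.Helper86.CT
open Pool.Agent.Helper90.C75 (Vt mulT avg wtT bt Wts sum_Vt_succ)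
open Pool.Agent.Helper90.KMO (zv cz)
open Pool.Agent.Helper90.KMT (mf0 nmf sgv KTab nlf lf0 c3 KMK PT)
open Pool.Agent.Helper17.PAK
open Pool.Agent.Helper17.KPT
open Pool.Agent.Helper21.KCE (Rp toM_rep)
open Complex ComplexConjugate

section

variable {α β p v γ : Type} {D : ℕ} {lC : α → Vt D → Cx} {lf : α → Vt D → ℂ}
  {mf : (ℕ → ℝ) → β → (ℕ → ℝ) → ℝ} {lp : p → Vt D → P9} {lv : v → Vt D → VR}
  {lg : γ → Vt D → ℕ} {Sp : p → List Bool → Prop} {Sv : v → List Bool → Prop}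
  {Sg : γ → List Bool → Prop} {M : Mc α β p v γ}

/-- the tree of ones -/
def ON {β : Type} (mf : (ℕ → ℝ) → β → (ℕ → ℝ) → ℝ) (ONE : β) : Prop :=
  ∀ t : ℕ → ℝ, mf (fun y => (u32 y 0 : ℝ)) ONE t = 2 ^ 24

theorem on0_ok : ON mf0 on0 := by
  intro t
  show ((u32 16777216 0 : ℕ) : ℝ) = 2 ^ 24
  have : u32 16777216 0 = 16777216 := by decide +kernel
  rw [this]
  norm_num

theorem ON.nx {β : Type} {D : ℕ} {mf : (ℕ → ℝ) → β → (ℕ → ℝ) → ℝ} {o : β} (h : ON mf o) :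
    ON (nmf D mf) (⟨o, o⟩ : Pr β) := by
  intro t
  show (1 - t D) * mf _ o t + t D * mf _ o t = 2 ^ 24
  rw [h t]
  ring

theorem on1_ok : ON (nmf 0 mf0) on1 := on0_ok.nx
theorem on2_ok : ON (nmf 1 (nmf 0 mf0)) on2 := on1_ok.nx
theorem on3_ok : ON (nmf 2 (nmf 1 (nmf 0 mf0))) on3 := on2_ok.nx
theorem on4_ok : ON (nmf 3 (nmf 2 (nmf 1 (nmf 0 mf0)))) on4 := on3_ok.nx

/-- the test of a leaf -/
theorem id_leaf {x y z : ℕ} {X Y : Fin 9 → ℤ} (hX : Rc x X) (hY : Rc y Y)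
    (bX : Bf (2 ^ 68) X) (bY : Bf (2 ^ 68) Y)
    (h : ps0 NG 1 (Nat.add (2 ^ 255 + 2 ^ 255 * 2 ^ 256 + 2 ^ 255 * (2 ^ 256) ^ 2 +
      2 ^ 255 * (2 ^ 256) ^ 3 +
      2 ^ 255 * (2 ^ 256) ^ 4 + 2 ^ 255 * (2 ^ 256) ^ 5 + 2 ^ 255 * (2 ^ 256) ^ 6 +
      2 ^ 255 * (2 ^ 256) ^ 7 + 2 ^ 255 * (2 ^ 256) ^ 8)
      (Nat.mul NG (Nat.mul 1 (1 + 2 ^ 256 + (2 ^ 256) ^ 2)))) 1 0 x y z = true)
    (w : Fin 3 → ℂ) : 0 ≤ rz w Y - rz w X - nrm w := by
  have h0 : Rp (Nat.mul 0 z) 0 := by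
    have e : Nat.mul 0 z = 0 := Nat.zero_mul z
    rw [e]
    exact Rp.nat 0
  have h1 := Rp.add (Rp.add (Rp.neg hX) (Rp.mul (Rp.nat 1)
    (Rp.add (Rp.mul (Rp.nat 1) hY) h0))) (w_rep 1)
  have h2 := rep_eq (y := pk9 (2 ^ 256) (addH (addH (toH (Y - X)) (idH (-(1 : ℤ))))
      (cstH (2 ^ 255)))) h1 (by
    simp only [pk9, addH, idH, cstH, toH, Pi.sub_apply]
    push_cast
    generalize (2 : ℤ) ^ 256 = X
    generalize (2 : ℤ) ^ 255 = Y
    ring)
  have h3 : Bd (2 ^ 255 - 1) (addH (toH (Y - X)) (idH (-(1 : ℤ)))) := by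
    have he' : |-(1 : ℤ)| ≤ 2 ^ 200 := by norm_num
    have h0 : |(0 : ℤ)| ≤ 2 ^ 200 := by norm_num
    have h4 : Bd (2 ^ 200) (idH (-(1 : ℤ))) := ⟨he', he', he', h0, h0, h0, h0, h0, h0⟩
    exact ((bY.sub bX).bd.add h4).mono (by norm_num)
  have h5 := PDz_ev (psd_sound h2 h3 h) w
  rw [ev_HI] at h5
  have e : rz w (Y - X) = rz w Y - rz w X := by
    simp only [rz, Pi.sub_apply, ← Finset.sum_sub_distrib]
    refine Finset.sum_congr rfl fun i _ => ?_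
    push_cast
    ring
  rw [e] at h5
  push_cast at h5
  linarith

/-- **an identity block** -/
theorem idT_sound (hM : MK D lC lf mf lp lv lg Sp Sv Sg M) {KT LT ONE : β} (h1 : ON mf ONE)
    {k : ℕ} {x : SE} (h : idT M KT LT ONE k x = true) {t : ℕ → ℝ} (ht : PT D t)
    (w : Fin 3 → ℂ) :
    2 ^ D * (lamI mf LT x.l t * (2 ^ 20 * ev (KTab mf KT x.k t) w)) + nrm w ≤
      2 ^ D * (2 ^ 24 * (2 ^ 20 * ev (KTab mf KT k t) w)) := by
  obtain ⟨X, x1, x2, x3⟩ := hM.l.ex k 0 KT ONE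
  obtain ⟨Y, y1, y2, y3⟩ := hM.l.ex x.k x.l KT LT
  have hD := hM.hD
  have p2 : (2 : ℤ) ^ D ≤ 2 ^ 4 := pow_le_pow_right₀ (by norm_num) hD
  have bd : ∀ {N : Fin 9 → ℤ}, Bf (2 ^ D * 2 ^ 63) N → Bf (2 ^ 68) N := by
    intro N hN
    refine hN.mono ?_
    calc (2 : ℤ) ^ D * 2 ^ 63 ≤ 2 ^ 4 * 2 ^ 63 := mul_le_mul_of_nonneg_right p2 (by norm_num)
      _ ≤ 2 ^ 68 := by norm_num
  have hL : ∀ u, 0 ≤ rz w (Y u) - rz w (X u) - nrm w := fun u =>
    id_leaf (x1 u) (y1 u) (bd (x2 u)) (bd (y2 u)) (hM.p h u) w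
  have hw := ht.w
  have h0 : 0 ≤ ∑ u, wtT D t u * (rz w (Y u) - rz w (X u) - nrm w) :=
    Finset.sum_nonneg fun u _ => mul_nonneg (hw.nonneg u) (hL u)
  have e1 : ∀ u : Vt D, wtT D t u * (rz w (Y u) - rz w (X u) - nrm w) =
      wtT D t u * rz w (Y u) - wtT D t u * rz w (X u) - nrm w * wtT D t u := fun u => by ring
  rw [Finset.sum_congr rfl fun u _ => e1 u, Finset.sum_sub_distrib, Finset.sum_sub_distrib,
    ← Finset.mul_sum, hw.sum, rz_sum, rz_sum] at h0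
  simp only [x3, y3] at h0
  have e2 : ∀ (a : ℝ) (k : ℕ), ∑ i, -(2 ^ D * (a * mf (fun y => (toF (kz (kf y k)) i : ℝ)) KT t)) *
      qz w i = -(2 ^ D * (a * (2 ^ 20 * ev (KTab mf KT k t) w))) := by
    intro a k
    rw [← ktab_sum, Finset.mul_sum, Finset.mul_sum, ← Finset.sum_neg_distrib]
    refine Finset.sum_congr rfl fun i _ => ?_
    ring
  rw [e2, e2] at h0
  have e3 : mf (fun y => (u32 y (Nat.mul 32 x.l) : ℝ)) LT t = lamI mf LT x.l t := rfl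
  have e4 : mf (fun y => (u32 y (Nat.mul 32 0) : ℝ)) ONE t = 2 ^ 24 := h1 t
  rw [e3, e4] at h0
  linarith

/-- strict positivity of a value gives a nonzero vector -/
theorem nrm_pos_of {K : Hm ℝ} {v : Fin 3 → ℂ} (h : 0 < ev K v) : 0 < nrm v := by
  by_contra hn
  push Not at hn
  have h0 := normSq_nonneg (v 0)
  have h1 := normSq_nonneg (v 1)
  have h2 := normSq_nonneg (v 2)
  have e : nrm v = normSq (v 0) + normSq (v 1) + normSq (v 2) := rfl
  rw [e] at hn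
  have z0 : v 0 = 0 := normSq_eq_zero.1 (by linarith)
  have z1 : v 1 = 0 := normSq_eq_zero.1 (by linarith)
  have z2 : v 2 = 0 := normSq_eq_zero.1 (by linarith)
  have : ev K v = 0 := by
    simp only [ev, z0, z1, z2, map_zero, mul_zero, zero_mul, Complex.zero_re, add_zero]
  linarith

theorem idTs_mem {KT LT ONE : β} {k : ℕ} {s : List SE} (h : idTs M KT LT ONE k s = true) :
    ∀ x ∈ s, idT M KT LT ONE k x = true := by
  induction s with
  | nil => intro x hx; cases hx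
  | cons y s ih =>
      have h' : andB (idT M KT LT ONE k y) (idTs M KT LT ONE k s) = true := h
      rw [andB_iff] at h'
      intro x hx
      rcases List.mem_cons.1 hx with rfl | hx
      · exact h'.1
      · exact ih h'.2 x hx

theorem chkIT_mem {KT LT ONE : β} {l : List IT} (h : chkIT M KT LT ONE l = true) :
    ∀ x ∈ l, ∀ y ∈ x.s, idT M KT LT ONE x.k y = true := by
  induction l with
  | nil => intro x hx; cases hx
  | cons y l ih =>
      have h' : andB (idTs M KT LT ONE y.k y.s) (chkIT M KT LT ONE l) = true := h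
      rw [andB_iff] at h'
      intro x hx
      rcases List.mem_cons.1 hx with rfl | hx
      · exact idTs_mem h'.1
      · exact ih h'.2 x hx

/-- **THE IDENTITY BLOCKS OF A CELL**; `hn`: multi-affine functions with nonnegative vertices are
nonnegative -/
theorem chkIT_pos (hM : MK D lC lf mf lp lv lg Sp Sv Sg M)
    (hn : ∀ (f : ℕ → ℝ) (T : β) (t : ℕ → ℝ), PT D t → (∀ x, 0 ≤ f x) → 0 ≤ mf f T t)
    {KT LT ONE : β} (h1 : ON mf ONE) {l : List IT} (h : chkIT M KT LT ONE l = true) {t : ℕ → ℝ}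
    (ht : PT D t) : ∀ x ∈ l, ∀ y ∈ x.s, ∀ v, 0 < ev (KTab mf KT y.k t) v →
      0 < ev (KTab mf KT x.k t) v := by
  intro x hx y hy v hv
  have h2 := idT_sound hM h1 (chkIT_mem h x hx y hy) ht v
  have h3 := nrm_pos_of hv
  have h4 : 0 ≤ lamI mf LT y.l t := hn _ _ _ ht fun x => Nat.cast_nonneg _
  have h5 : 0 ≤ 2 ^ D * (lamI mf LT y.l t * (2 ^ 20 * ev (KTab mf KT y.k t) v)) := by positivity
  have h6 : 0 < 2 ^ D * (2 ^ 24 * (2 ^ 20 * ev (KTab mf KT x.k t) v)) := by linarith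
  by_contra hc
  push Not at hc
  have h7 : 2 ^ D * (2 ^ 24 * (2 ^ 20 * ev (KTab mf KT x.k t) v)) ≤ 0 := by
    have a1 : (0 : ℝ) ≤ 2 ^ D * (2 ^ 24 * 2 ^ 20) := by positivity
    have := mul_nonpos_of_nonneg_of_nonpos a1 hc
    linarith
  linarith

end

end Pool.Agent.Helper48.NCT
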