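import Pool.Agent.Helper48.CT.NKI
import Pool.Agent.Helper39.CX.NCM

/-!
Row NCT (MP_c75db0): chains of near cells of a class with tails.
-/

set_option autoImplicit false
noncomputable section
namespace Pool.Agent.Helper48.NCT

open Pool.Agent.Helper86.CX (andB)
open Pool.Agent.Helper6.MONO.QTR (TCell)
open Pool.Agent.Helper21.KCE (andB_tt)

/-- two lists of the same length, side conditions -/
def sideLT {ν σ : Type} (f : ν → σ → Bool) : List ν → List σ → Bool
  | [], [] => true
  | d :: l, A :: m => f d A && sideLT f l m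
  | _, _ => false

/-- A CHAIN OF CELLS, with side conditions of the cells -/
theorem pcNT_tcell {α β δ σ : Type} {f : NDT α β δ → Bool} {g : NDT α β δ → σ → Bool}
    {a b c : ℕ} {x0 : ℝ} {e : ℕ} :
    ∀ (l : List (NDT α β δ)) (d : NDT α β δ) (As : List σ) (y : ℕ), pcNT f e (d :: l) y = true →
      sideLT g (d :: l) As = true →
      (∀ u ∈ d :: l, ∀ A, g u A = true → f u = true →
        TCell a b c x0 ((u.c.ya : ℝ) / 2 ^ 48) ((u.c.yb : ℝ) / 2 ^ 48)) →
      TCell a b c x0 ((y : ℝ) / 2 ^ 48) ((e : ℝ) / 2 ^ 48) := by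
  intro l
  induction l with
  | nil =>
    intro d As y H hA hf
    obtain ⟨h1, H⟩ := andB_tt H
    obtain ⟨-, H⟩ := andB_tt H
    obtain ⟨h3, h4⟩ := andB_tt H
    have e1 : y = d.c.ya := Nat.eq_of_beq_eq_true h1
    have e2 : d.c.yb = e := Nat.eq_of_beq_eq_true h4
    rcases As with _ | ⟨A, As⟩
    · cases hA
    · have hA' : (g d A && sideLT g [] As) = true := hA
      rw [Bool.and_eq_true] at hA'
      rw [e1, ← e2]
      exact hf d List.mem_cons_self A hA'.1 h3
  | cons d' l ih =>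
    intro d As y H hA hf
    obtain ⟨h1, H⟩ := andB_tt H
    obtain ⟨-, H⟩ := andB_tt H
    obtain ⟨h3, h4⟩ := andB_tt H
    have e1 : y = d.c.ya := Nat.eq_of_beq_eq_true h1
    rcases As with _ | ⟨A, As⟩
    · cases hA
    · have hA' : (g d A && sideLT g (d' :: l) As) = true := hA
      rw [Bool.and_eq_true] at hA'
      rw [e1]
      exact (hf d List.mem_cons_self A hA'.1 h3).join (ih d' As d.c.yb h4 hA'.2 fun u hu =>
        hf u (List.mem_cons_of_mem _ hu))

/-- the same for a nonempty list -/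
theorem pcNT_tcell' {α β δ σ : Type} {f : NDT α β δ → Bool} {g : NDT α β δ → σ → Bool}
    {a b c : ℕ} {x0 : ℝ} {e : ℕ} {l : List (NDT α β δ)} (hl : l ≠ []) {As : List σ} {y : ℕ}
    (H : pcNT f e l y = true) (hs : sideLT g l As = true)
    (hf : ∀ u ∈ l, ∀ A, g u A = true → f u = true →
      TCell a b c x0 ((u.c.ya : ℝ) / 2 ^ 48) ((u.c.yb : ℝ) / 2 ^ 48)) :
    TCell a b c x0 ((y : ℝ) / 2 ^ 48) ((e : ℝ) / 2 ^ 48) := by
  obtain ⟨d, l, rfl⟩ := List.exists_cons_of_ne_nil hl
  exact pcNT_tcell l d As y H hs hf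

end Pool.Agent.Helper48.NCT
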